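import Pool.Agent.Helper98.EQ.Goals
import Mathlib

/-!
# Packet EQ-SRC (project EQ, MP_5b9a11_al)
-/

set_option autoImplicit false
set_option linter.unusedSectionVars false

namespace Pool.Agent.Helper57.EQ.SRC

open MonoidAlgebra IsLocalRing Pool.Agent.Helper17.PF Pool.Agent.Helper98.EQ
open Pool.Agent.Helper47.EP (Dat Chr Hs Om ee ev kap dm pHB pSIM pRHO)

section

variable {p : ℕ} {T : Dat p} {A : Type} [Fintype A] [DecidableEq A] {D : Type} [Group D]
  (M : SA T A D) {R : Type} [CommRing R]

theorem inE_coeff (x : MonoidAlgebra R (Hs T A)) (g : Hs T A) :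
    (inE M R x).coeff (SemidirectProduct.inl g : GG M) = x.coeff g :=
  Finsupp.mapDomain_apply SemidirectProduct.inl_injective x.coeff g

theorem inE_single (g : Hs T A) (r : R) :
    inE M R (single g r) = single (SemidirectProduct.inl g : GG M) r := by
  unfold inE
  rw [mapDomainRingHom_apply, mapDomain_single]

theorem conj_inE (d : D) (x : MonoidAlgebra R (Hs T A)) :
    single (SemidirectProduct.inr d : GG M) (1 : R) * inE M R x *
      single (SemidirectProduct.inr d : GG M)⁻¹ 1 =
      inE M R (mapDomain (M.s d) x) := by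
  induction x using MonoidAlgebra.induction_linear with
  | zero => simp
  | add x y hx hy => rw [map_add, mul_add, add_mul, hx, hy, mapDomain_add, map_add]
  | single g r =>
    rw [mapDomain_single, inE_single, inE_single, single_mul_single, single_mul_single, one_mul,
      mul_one, ← map_inv]
    congr 1
    exact (SemidirectProduct.inl_aut d g).symm

theorem mapDomain_inv (d : D) (x : MonoidAlgebra R (Hs T A))
    (h : ∀ g, x.coeff (M.s d g) = x.coeff g) : mapDomain (M.s d) x = x := by
  ext g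
  obtain ⟨g', rfl⟩ := (M.s d).surjective g
  rw [h g']
  exact Finsupp.mapDomain_apply (M.s d).injective x.coeff g'

theorem br_coeff_one [IsLocalRing R] {L : Type} [Group L] (P : Subgroup L)
    (x : MonoidAlgebra R L) : (br P x).coeff 1 = residue R (x.coeff 1) := rfl

theorem red_inE [IsLocalRing R] (x : MonoidAlgebra R (Hs T A)) :
    red R (GG M) (inE M R x) = inE M (ResidueField R) (red R (Hs T A) x) :=
  RingHom.congr_fun (mapRingHom_comp_mapDomainRingHom (residue R)
    (SemidirectProduct.inl : Hs T A →* GG M)) x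

theorem ee_coeff_one [Fact p.Prime] (C : Chr T R) : (ee C A).coeff 1 = C.il := by
  obtain ⟨-, -, -, -, h5, -, -⟩ := pHB p T A R C
  have h := h5 0 1
  have h1 : ev C (0 : A → T.K) = ee C A := by
    unfold ev
    have : (⟨0, 0⟩ : Hs T A) = 1 := rfl
    rw [this, ← one_def, one_mul]
  rw [h1, if_pos Pool.Agent.Helper47.EP.Hs.one_v, Pool.Agent.Helper47.EP.Hs.one_z, neg_zero,
    AddChar.map_zero_eq_one, mul_one] at h
  exact h

theorem isPGroup_DD [Finite D] (hD : IsPGroup p D) : IsPGroup p (DD M) :=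
  hD.of_surjective (SemidirectProduct.inr : D →* GG M).rangeRestrict
    (SemidirectProduct.inr : D →* GG M).rangeRestrict_surjective

theorem card_Hs : Nat.card (Hs T A) = (T.l ^ 2) ^ Fintype.card A * T.l := by
  have : NeZero T.l := ⟨T.prime.ne_zero⟩
  rw [Nat.card_congr (Pool.Agent.Helper47.EP.Hs.equiv T A), Nat.card_prod,
    Nat.card_eq_fintype_card, Nat.card_eq_fintype_card, Fintype.card_fun, T.card, ZMod.card]

theorem card_DD : Nat.card (DD M) = Nat.card D :=
  (Nat.card_congr (MonoidHom.ofInjective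
    (SemidirectProduct.inr_injective : Function.Injective
      (SemidirectProduct.inr : D →* GG M))).toEquiv).symm

theorem max_DD [Fact p.Prime] [Finite D] (_hD : IsPGroup p D)
    (P : Subgroup (GG M)) (hP : IsPGroup p P) (hle : DD M ≤ P) : P = DD M := by
  have hp : p.Prime := Fact.out
  have hfin : Finite (GG M) := by
    have : Finite (Hs T A × D) := inferInstance
    exact Finite.of_equiv _ (SemidirectProduct.equivProd (φ := M.s)).symm
  obtain ⟨n, hn⟩ := IsPGroup.iff_card.1 hP
  have hdvd : Nat.card P ∣ Nat.card (Hs T A) * Nat.card D := by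
    rw [← SemidirectProduct.card (φ := M.s)]
    exact Subgroup.card_subgroup_dvd_card P
  have hcop : Nat.Coprime (Nat.card P) (Nat.card (Hs T A)) := by
    rw [hn, card_Hs]
    have h1 : Nat.Coprime p T.l := (Nat.coprime_primes hp T.prime).2 (Ne.symm T.ne)
    exact Nat.Coprime.pow_left _ (Nat.Coprime.mul_right
      (Nat.Coprime.pow_right _ (Nat.Coprime.pow_right _ h1)) h1)
  have hd2 : Nat.card P ∣ Nat.card D := hcop.dvd_of_dvd_mul_left hdvd
  have hle2 : Nat.card P ≤ Nat.card (DD M) := by
    rw [card_DD]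
    exact Nat.le_of_dvd Nat.card_pos hd2
  exact (Subgroup.eq_of_le_of_card_ge hle hle2).symm

end

theorem t (th' : S_TH) (nil : S_NIL) : S_SRC := by
  intro p _ T A _ _ D _ _ hD M 𝒪 _ _ _ _ C I
  obtain ⟨-, hcen, -, -, -, -, hmap⟩ := pHB p T A 𝒪 C
  have hree : red 𝒪 (Hs T A) (ee C A) = ee (C.map (residue 𝒪)) A :=
    (hmap (ResidueField 𝒪) (residue 𝒪)).1
  have hil : residue 𝒪 C.il ≠ 0 := by
    intro h
    have := congrArg (residue 𝒪) C.il_mul
    rw [map_mul, h, zero_mul, map_one] at this
    exact zero_ne_one this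
  have hinl1 : ∀ x : MonoidAlgebra 𝒪 (Hs T A), (inE M 𝒪 x).coeff 1 = x.coeff 1 := by
    intro x
    have h := inE_coeff (T := T) M x 1
    rwa [map_one] at h
  refine ⟨⟨isPGroup_DD M hD, ?_, fun P hP _ hle => max_DD M hD P hP hle⟩, ?_⟩
  · intro h0
    have h1 := br_coeff_one (DD M) (inE M 𝒪 (ee C A))
    rw [h0, hinl1, ee_coeff_one] at h1
    exact hil h1.symm
  · intro i hii hei hIv hprim hne
    obtain ⟨-, -, hine, hmin⟩ := hprim
    have hie : i * ee C A = i := by rw [← hcen, hei]
    obtain ⟨t1, t2, t3, t4, -, t6, -, -⟩ :=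
      th' p T A D M (ResidueField 𝒪) (C.map (residue 𝒪)) (I.map (residue 𝒪))
    have hredi : red 𝒪 (Hs T A) i * ee (C.map (residue 𝒪)) A = red 𝒪 (Hs T A) i := by
      rw [← hree, ← map_mul, hie]
    have hthi : th (I.map (residue 𝒪)) (red 𝒪 (GG M) (inE M 𝒪 i)) =
        red 𝒪 (Hs T A) i := by
      rw [red_inE, t2, hredi]
    have hEi : inE M 𝒪 (ee C A) * inE M 𝒪 i = inE M 𝒪 i := by rw [← map_mul, hei]
    refine ⟨⟨⟨?_, ?_⟩, ?_, ?_, ?_⟩, ?_⟩
    · rw [← map_mul, hie]
    · rintro u ⟨d, rfl⟩
      rw [conj_inE, mapDomain_inv _ _ _ (hIv d)]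
    · rw [← map_mul, hii]
    · intro h0
      apply hne
      have h1 := hinl1 i
      rw [h0] at h1
      rw [coeff_red, ← h1]
      simp
    · rintro f ⟨-, hfD⟩ hff hif hfi
      have hEf : inE M 𝒪 (ee C A) * f = f := by
        rw [← hif, ← mul_assoc, hEi]
      have hnil : ∀ y : MonoidAlgebra 𝒪 (GG M), y * y = y →
          inE M 𝒪 (ee C A) * y = y →
          th (I.map (residue 𝒪)) (red 𝒪 (GG M) y) = 0 → y = 0 := by
        intro y hy hEy hty
        apply idem_zero hy
        refine nil p T A (ResidueField 𝒪) (C.map (residue 𝒪)) D hD M (I.map (residue 𝒪)) _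
          ?_ ?_ hty
        · rw [← map_mul, hy]
        · rw [← hree, ← red_inE, ← map_mul, hEy]
      have hm1 : Iv M (th (I.map (residue 𝒪)) (red 𝒪 (GG M) f)) := by
        intro d g
        have h3 := t3 d (red 𝒪 (GG M) f) g
        rw [← red_single (𝒪 := 𝒪) (SemidirectProduct.inr d : GG M),
          ← red_single (𝒪 := 𝒪) (SemidirectProduct.inr d : GG M)⁻¹, ← map_mul, ← map_mul,
          hfD _ ⟨d, rfl⟩] at h3
        exact h3
      have hm2 : th (I.map (residue 𝒪)) (red 𝒪 (GG M) f) *
          th (I.map (residue 𝒪)) (red 𝒪 (GG M) f) =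
          th (I.map (residue 𝒪)) (red 𝒪 (GG M) f) := by
        rw [← t1, ← map_mul, hff]
      have hm3 : red 𝒪 (Hs T A) i * th (I.map (residue 𝒪)) (red 𝒪 (GG M) f) =
          th (I.map (residue 𝒪)) (red 𝒪 (GG M) f) := by
        rw [← hthi, ← t1, ← map_mul, hif]
      have hm4 : th (I.map (residue 𝒪)) (red 𝒪 (GG M) f) * red 𝒪 (Hs T A) i =
          th (I.map (residue 𝒪)) (red 𝒪 (GG M) f) := by
        rw [← hthi, ← t1, ← map_mul, hfi]
      rcases hmin _ ⟨t4 _, hm1⟩ hm2 hm3 hm4 with h | h
      · left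
        exact hnil f hff hEf h
      · right
        have hsub : inE M 𝒪 i - f = 0 := by
          apply hnil
          · rw [mul_sub, sub_mul, sub_mul, ← map_mul, hii, hff, hif, hfi]
            abel
          · rw [mul_sub, hEi, hEf]
          · have h6 := t6 (red 𝒪 (GG M) (inE M 𝒪 i - f)) (red 𝒪 (GG M) f)
            rw [← map_add, sub_add_cancel, hthi, h] at h6
            exact (left_eq_add.1 (h6.trans (add_comm _ _)))
        exact (sub_eq_zero.1 hsub).symm
    · intro h0
      apply hne
      have h1 := br_coeff_one (DD M) (inE M 𝒪 i)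
      rw [h0, hinl1] at h1
      rw [coeff_red, ← h1]
      simp

end Pool.Agent.Helper57.EQ.SRC
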